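import Pool.Agent.H37.CTN.Stmts

/-!
# Row UB2 of the board ctn
-/

set_option autoImplicit false

namespace Pool.CND

open Polynomial Matrix

namespace UB2

theorem dvd_of_squarefree {F : Type} [Field F] (μ a : F[X]) (hμ : Squarefree μ)
    (h : ∀ P : F[X], Irreducible P → P ∣ μ → P ∣ a) : μ ∣ a := by
  classical
  obtain ⟨e, he⟩ := EuclideanDomain.gcd_dvd_left μ a
  have hμ0 : μ ≠ 0 := hμ.ne_zero
  by_cases hu : IsUnit e
  · have h1 : μ ∣ EuclideanDomain.gcd μ a := by
      obtain ⟨u, hu⟩ := hu
      refine ⟨(u⁻¹ : (F[X])ˣ), ?_⟩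
      conv_lhs => skip
      rw [mul_comm]
      have := he
      rw [← hu] at this
      calc EuclideanDomain.gcd μ a = EuclideanDomain.gcd μ a * (u * (u⁻¹ : (F[X])ˣ)) := by
            rw [Units.mul_inv, mul_one]
        _ = (u⁻¹ : (F[X])ˣ) * μ := by
            conv_rhs => rw [this]
            ring
    exact h1.trans (EuclideanDomain.gcd_dvd_right μ a)
  · exfalso
    have he0 : e ≠ 0 := by
      rintro rfl
      rw [mul_zero] at he
      exact hμ0 he
    obtain ⟨P, hP, hPe⟩ := WfDvdMonoid.exists_irreducible_factor hu he0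
    have hPμ : P ∣ μ := by
      rw [he]
      exact hPe.mul_left _
    have hPg : P ∣ EuclideanDomain.gcd μ a := EuclideanDomain.dvd_gcd hPμ (h P hP hPμ)
    have h2 : P * P ∣ μ := by
      rw [he]
      exact mul_dvd_mul hPg hPe
    exact hP.not_isUnit (hμ P h2)

theorem pow_dvd {F : Type} [Field F] {a b : ℕ} (h : a ∣ b) :
    (X ^ a - 1 : F[X]) ∣ X ^ b - 1 := by
  obtain ⟨c, rfl⟩ := h
  rw [pow_mul]
  simpa using sub_dvd_pow_sub_pow (X ^ a : F[X]) 1 c

/-- a stable subspace that is neither `0` nor everything -/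
theorem deg_lt {F : Type} [Field F] {n : ℕ} (G : Matrix (Fin n) (Fin n) F) (P : F[X])
    (hP : Irreducible P) (hPμ : P ∣ minpoly F G) (U : Submodule F (Fin n → F))
    (hU : ∀ u ∈ U, G.mulVec u ∈ U) (v : Fin n → F) (hv : v ≠ 0) (hvU : v ∈ U) (hUt : U ≠ ⊤) :
    P.natDegree < n := by
  classical
  have hint : IsIntegral F G := Matrix.isIntegral G
  have hμ0 : minpoly F G ≠ 0 := minpoly.ne_zero hint
  have hd : (minpoly F G).natDegree ≤ n := by
    have h1 := Polynomial.natDegree_le_of_dvd (Matrix.minpoly_dvd_charpoly G)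
      (Matrix.charpoly_monic G).ne_zero
    rwa [Matrix.charpoly_natDegree_eq_dim, Fintype.card_fin] at h1
  have hle : P.natDegree ≤ n := (Polynomial.natDegree_le_of_dvd hPμ hμ0).trans hd
  rcases lt_or_eq_of_le hle with h | h
  · exact h
  · exfalso
    -- P kills G
    have hPG : aeval G P = 0 := by
      obtain ⟨c, hc⟩ := hPμ
      have hc0 : c ≠ 0 := by
        rintro rfl
        rw [mul_zero] at hc
        exact hμ0 hc
      have h1 : (minpoly F G).natDegree = P.natDegree + c.natDegree := by
        rw [hc]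
        exact Polynomial.natDegree_mul hP.ne_zero hc0
      have h2 : c.natDegree = 0 := by omega
      obtain ⟨b, hb⟩ : ∃ b, c = C b := ⟨c.coeff 0, Polynomial.eq_C_of_natDegree_eq_zero h2⟩
      have hb0 : b ≠ 0 := by
        rintro rfl
        rw [C_0] at hb
        exact hc0 hb
      have h3 : aeval G (minpoly F G) = 0 := minpoly.aeval F G
      rw [hc, hb, map_mul, aeval_C] at h3
      have h4 : b • aeval G P = 0 := by
        rw [← h3, Algebra.algebraMap_eq_smul_one, mul_smul_comm, mul_one]
      exact (smul_eq_zero.1 h4).resolve_left hb0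
    have hpoly : ∀ f : F[X], ∀ u ∈ U, (aeval G f).mulVec u ∈ U := by
      intro f
      induction f using Polynomial.induction_on' with
      | add a b ha hb =>
        intro u hu
        rw [map_add, Matrix.add_mulVec]
        exact U.add_mem (ha u hu) (hb u hu)
      | monomial k a =>
        intro u hu
        rw [aeval_monomial, Algebra.algebraMap_eq_smul_one, smul_mul_assoc, one_mul,
          Matrix.smul_mulVec]
        refine U.smul_mem _ ?_
        induction k with
        | zero => simpa using hu
        | succ k ih =>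
          rw [pow_succ', ← Matrix.mulVec_mulVec]
          exact hU _ ih
    let φ : degreeLT F n →ₗ[F] (Fin n → F) :=
      { toFun := fun f => (aeval G f.1).mulVec v
        map_add' := by
          intro a b
          simp [Matrix.add_mulVec]
        map_smul' := by
          intro c a
          simp [Matrix.smul_mulVec] }
    have hinj : Function.Injective φ := by
      rw [injective_iff_map_eq_zero]
      intro f hf
      by_contra hf0
      have hf1 : f.1 ≠ 0 := fun h => hf0 (Subtype.ext h)
      have hdeg : f.1.natDegree < P.natDegree := by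
        rw [h]
        have := mem_degreeLT.1 f.2
        exact (Polynomial.natDegree_lt_iff_degree_lt hf1).2 this
      have hcop : IsCoprime P f.1 := by
        rw [hP.coprime_iff_not_dvd]
        intro hdvd
        have := Polynomial.natDegree_le_of_dvd hdvd hf1
        omega
      obtain ⟨a, b, hab⟩ := hcop
      apply hv
      have h5 : v = (aeval G (a * P + b * f.1)).mulVec v := by
        rw [hab]
        simp
      rw [h5, map_add, map_mul, map_mul, hPG, mul_zero, zero_add, ← Matrix.mulVec_mulVec]
      have h6 : (aeval G f.1).mulVec v = 0 := hf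
      rw [h6, Matrix.mulVec_zero]
    have hfr : Module.finrank F (degreeLT F n) = Module.finrank F (Fin n → F) := by
      rw [(degreeLTEquiv F n).finrank_eq]
    have hfin : Module.Finite F (degreeLT F n) := Module.Finite.equiv (degreeLTEquiv F n).symm
    have hsurj : Function.Surjective φ :=
      (LinearMap.injective_iff_surjective_of_finrank_eq_finrank hfr).1 hinj
    apply hUt
    rw [eq_top_iff]
    intro w _
    obtain ⟨f, hf⟩ := hsurj w
    rw [← hf]
    exact hpoly f.1 v hvU

end UB2

open UB2 in
theorem ub2_thm : S_UB2 := by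
  classical
  intro p f q n F _ C g hp hf hq hF hC hCne hgC hg
  haveI : Fact p.Prime := ⟨hp⟩
  have hq0 : q ≠ 0 := by
    rw [hq]
    exact pow_ne_zero _ hp.ne_zero
  haveI : Finite F := Nat.finite_of_card_ne_zero (by rw [hF]; exact hq0)
  haveI : Fintype F := Fintype.ofFinite F
  haveI : CharP F p := by
    obtain ⟨r, hr⟩ := CharP.exists F
    have h1 := FiniteField.card F r
    obtain ⟨m, hr', hm⟩ := h1
    have h2 : p ^ f = r ^ (m : ℕ) := by
      rw [← hm, ← hq, ← hF, Nat.card_eq_fintype_card]
    have h3 : r ∣ p ^ f := by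
      rw [h2]
      exact dvd_pow_self _ m.pos.ne'
    have h4 : r = p := (Nat.prime_dvd_prime_iff_eq hr' hp).1 (hr'.dvd_of_dvd_pow h3)
    rw [← h4]
    exact hr
  have hn : 1 ≤ n := by
    rcases Nat.eq_zero_or_pos n with rfl | h
    · exfalso
      apply hCne
      rw [eq_bot_iff]
      intro x _
      rw [Subgroup.mem_bot]
      apply Units.ext
      ext i
      exact i.elim0
    · exact h
  obtain ⟨a, ha⟩ := hC
  have hpC : IsPGroup p C := IsPGroup.of_card ha
  haveI : Finite C := Nat.finite_of_card_ne_zero (by rw [ha]; exact pow_ne_zero _ hp.ne_zero)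
  letI act : MulAction C (Fin n → F) :=
    { smul := fun x v => (x.1 : Matrix (Fin n) (Fin n) F).mulVec v
      one_smul := fun v => by
        change ((1 : C).1 : Matrix (Fin n) (Fin n) F).mulVec v = v
        simp
      mul_smul := fun x y v => by
        change ((x * y : C).1 : Matrix (Fin n) (Fin n) F).mulVec v =
          (x.1 : Matrix (Fin n) (Fin n) F).mulVec ((y.1 : Matrix (Fin n) (Fin n) F).mulVec v)
        rw [Matrix.mulVec_mulVec]
        simp }
  have hsm : ∀ (x : C) (v : Fin n → F), x • v = (x.1 : Matrix (Fin n) (Fin n) F).mulVec v :=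
    fun _ _ => rfl
  obtain ⟨v, hv, hv0⟩ := hpC.exists_fixed_point_of_prime_dvd_card_of_fixed_point (Fin n → F)
    (by
      rw [Nat.card_fun, Nat.card_eq_fintype_card (α := Fin n), Fintype.card_fin, hF, hq, ← pow_mul]
      exact dvd_pow_self _ (by positivity))
    (a := (0 : Fin n → F)) (by
      intro x
      rw [hsm, Matrix.mulVec_zero])
  let U : Submodule F (Fin n → F) :=
    { carrier := {u | ∀ x ∈ C, (x : Matrix (Fin n) (Fin n) F).mulVec u = u}
      add_mem' := by
        intro u w hu hw x hx
        rw [Matrix.mulVec_add, hu x hx, hw x hx]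
      zero_mem' := by
        intro x _
        rw [Matrix.mulVec_zero]
      smul_mem' := by
        intro c u hu x hx
        rw [Matrix.mulVec_smul, hu x hx] }
  have hvU : v ∈ U := by
    intro x hx
    have := hv ⟨x, hx⟩
    rwa [hsm] at this
  have hUt : U ≠ ⊤ := by
    intro h
    apply hCne
    rw [eq_bot_iff]
    intro x hx
    rw [Subgroup.mem_bot]
    apply Units.ext
    apply Matrix.ext_of_mulVec_single
    intro i
    have h1 : (Pi.single i 1 : Fin n → F) ∈ U := by
      rw [h]
      exact Submodule.mem_top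
    have h2 := h1 x hx
    rw [h2]
    funext j
    simp [Matrix.one_apply, Pi.single_apply]
  have hgU : ∀ u ∈ U, (g : Matrix (Fin n) (Fin n) F).mulVec u ∈ U := by
    intro u hu y hy
    let ψ : C → C := fun x => ⟨g * x.1 * g⁻¹, hgC x.1 x.2⟩
    have hψ : Function.Injective ψ := by
      intro x y hxy
      have := congrArg Subtype.val hxy
      apply Subtype.ext
      simpa [ψ] using this
    obtain ⟨x, hx⟩ := (Finite.injective_iff_surjective.1 hψ) ⟨y, hy⟩
    have hx' : g * x.1 * g⁻¹ = y := congrArg Subtype.val hx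
    have hx'' : y * g = g * x.1 := by
      rw [← hx']
      group
    rw [Matrix.mulVec_mulVec]
    have h3 : (y : Matrix (Fin n) (Fin n) F) * (g : Matrix (Fin n) (Fin n) F) =
        (g : Matrix (Fin n) (Fin n) F) * (x.1 : Matrix (Fin n) (Fin n) F) := by
      have := congrArg Units.val hx''
      simpa using this
    rw [h3, ← Matrix.mulVec_mulVec, hu x.1 x.2]
  set G : Matrix (Fin n) (Fin n) F := (g : Matrix (Fin n) (Fin n) F) with hG
  have hN0 : orderOf g ≠ 0 := fun h => hg (by rw [h]; exact dvd_zero p)
  have hGN : G ^ orderOf g = 1 := by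
    rw [hG, ← Units.val_pow_eq_pow_val, pow_orderOf_eq_one, Units.val_one]
  have hμN : minpoly F G ∣ X ^ orderOf g - 1 := by
    apply minpoly.dvd
    simp [hGN]
  have hsep : (X ^ orderOf g - 1 : F[X]).Separable := by
    rw [X_pow_sub_one_separable_iff]
    intro h
    exact hg ((CharP.cast_eq_zero_iff F p _).1 h)
  have hsq : Squarefree (minpoly F G) := hsep.squarefree.squarefree_of_dvd hμN
  have key : minpoly F G ∣ X ^ ((Finset.Icc 1 (n - 1)).lcm (fun m => q ^ m - 1)) - 1 := by
    apply dvd_of_squarefree _ _ hsq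
    intro P hP hPμ
    have hlt := deg_lt G P hP hPμ U hgU v (Ne.symm hv0) hvU hUt
    have hpos : 0 < P.natDegree := hP.natDegree_pos
    have h1 : P ∣ X ^ q ^ P.natDegree - X := by
      have := (hP.natDegree_dvd_iff_dvd_X_pow_card_pow_sub_X (n := P.natDegree)).1 dvd_rfl
      rwa [hF] at this
    have h2 : (X ^ q ^ P.natDegree - X : F[X]) = X * (X ^ (q ^ P.natDegree - 1) - 1) := by
      rw [mul_sub, mul_one, ← pow_succ']
      congr 2
      have : 0 < q ^ P.natDegree := pow_pos (Nat.pos_of_ne_zero hq0) _
      omega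
    rw [h2] at h1
    have hPX : ¬ P ∣ X := by
      intro hX
      have h3 : P ∣ X ^ orderOf g - 1 := hPμ.trans hμN
      have h4 : P ∣ X ^ orderOf g := hX.trans (dvd_pow_self _ hN0)
      have h5 : P ∣ 1 := by
        have := dvd_sub h4 h3
        simpa using this
      exact hP.not_isUnit (isUnit_of_dvd_one h5)
    have h6 : P ∣ X ^ (q ^ P.natDegree - 1) - 1 := (hP.prime.dvd_or_dvd h1).resolve_left hPX
    refine h6.trans (pow_dvd ?_)
    exact Finset.dvd_lcm (f := fun m => q ^ m - 1) (Finset.mem_Icc.2 ⟨hpos, by omega⟩)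
  have h7 : aeval G (X ^ ((Finset.Icc 1 (n - 1)).lcm (fun m => q ^ m - 1)) - 1 : F[X]) = 0 := by
    obtain ⟨c, hc⟩ := key
    rw [hc, map_mul, minpoly.aeval, zero_mul]
  apply Units.ext
  have h8 : G ^ ((Finset.Icc 1 (n - 1)).lcm (fun m => q ^ m - 1)) - 1 = 0 := by
    simpa using h7
  rw [Units.val_pow_eq_pow_val, Units.val_one, ← hG]
  exact sub_eq_zero.1 h8

end Pool.CND
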